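import Pool.Agent.PFE.StmtsE2

/-!
# Squad PFE, row GEX

The algebra `Γ = R[y]/y^l ⊗ R W` over `R`, with its special fibre: `Γ = S[X]/(X^l)`, `S = R W`.
-/

open scoped BigOperators

noncomputable section

namespace Pool.Agent.PFE.H2

open Pool.Agent.PFE Pool.Agent.PFD.D2

/-- `GY` from a basis -/
def gexG {R Γ W : Type} [CommRing R] [CommRing Γ] [Algebra R Γ] [CommGroup W] [Fintype W] {l : ℕ}
    (om : W →* Γ) (y : Γ) (yl : y ^ l = 0) (b : Module.Basis (W × Fin l) R Γ)
    (hb : ∀ (w : W) (i : Fin l), b (w, i) = y ^ (i : ℕ) * om w) : GY R Γ W l where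
  om := om
  y := y
  yl := yl
  co := fun k w => if h : k < l then b.coord (w, ⟨k, h⟩) else 0
  ex := by
    intro γ
    rw [Finset.sum_range]
    have h1 : ∑ i : Fin l, ∑ w, (if h : (i : ℕ) < l then b.coord (w, ⟨i, h⟩) else 0) γ •
        (y ^ (i : ℕ) * om w) = ∑ i : Fin l, ∑ w, b.repr γ (w, i) • b (w, i) := by
      refine Finset.sum_congr rfl ?_
      intro i _
      refine Finset.sum_congr rfl ?_
      intro w _
      rw [dif_pos i.2, hb]
      rfl
    rw [h1, ← Fintype.sum_prod_type_right (f := fun p : W × Fin l => b.repr γ p • b p)]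
    exact b.sum_repr γ
  un := by
    intro a k w hk
    have h1 : ∑ k ∈ Finset.range l, ∑ w, a k w • (y ^ k * om w) =
        ∑ p : W × Fin l, a p.2 p.1 • b p := by
      rw [Finset.sum_range, Fintype.sum_prod_type_right]
      refine Finset.sum_congr rfl ?_
      intro i _
      refine Finset.sum_congr rfl ?_
      intro w _
      rw [hb]
    rw [h1, dif_pos hk]
    have h2 := b.repr_sum_self (fun p : W × Fin l => a p.2 p.1)
    exact congrFun h2 (w, ⟨k, hk⟩)

theorem gex_ring (R W : Type) [CommRing R] [Nontrivial R] [CommGroup W] [Fintype W] (l : ℕ) :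
    ∃ (Γ : Type) (_ : CommRing Γ) (_ : Algebra R Γ) (_ : Module.Finite R Γ) (_ : Module.Free R Γ),
      Nonempty (GY R Γ W l) := by
  classical
  let S : Type := MonoidAlgebra R W
  let g : Polynomial (MonoidAlgebra R W) := Polynomial.X ^ l
  have hg : g.Monic := Polynomial.monic_X_pow l
  have hdim : (AdjoinRoot.powerBasis' hg).dim = l := by
    rw [AdjoinRoot.powerBasis'_dim]
    exact Polynomial.natDegree_X_pow l
  let e : MonoidAlgebra R W ≃ₗ[R] (W →₀ R) :=
    { toFun := MonoidAlgebra.coeff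
      invFun := MonoidAlgebra.ofCoeff
      left_inv := fun _ => rfl
      right_inv := fun _ => rfl
      map_add' := fun _ _ => rfl
      map_smul' := fun _ _ => rfl }
  let bs : Module.Basis W R (MonoidAlgebra R W) := Module.Basis.ofRepr e
  let b0 := bs.smulTower (AdjoinRoot.powerBasis' hg).basis
  let b : Module.Basis (W × Fin l) R (AdjoinRoot g) :=
    b0.reindex (Equiv.prodCongr (Equiv.refl W) (finCongr hdim))
  refine ⟨AdjoinRoot g, inferInstance, inferInstance, Module.Finite.of_basis b,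
    Module.Free.of_basis b, ⟨gexG ((algebraMap (MonoidAlgebra R W) (AdjoinRoot g)).toMonoidHom.comp
      (MonoidAlgebra.of R W)) (AdjoinRoot.root g) ?_ b ?_⟩⟩
  · have h1 : AdjoinRoot.mk g g = 0 := AdjoinRoot.mk_self
    have h2 : AdjoinRoot.mk g (Polynomial.X ^ l) = AdjoinRoot.root g ^ l := by
      rw [map_pow, AdjoinRoot.mk_X]
    rw [← h2]
    exact h1
  · intro w i
    have h1 : b (w, i) = b0 (w, (finCongr hdim).symm i) := by
      rw [Module.Basis.reindex_apply]
      rfl
    have h2 : bs w = MonoidAlgebra.of R W w := rfl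
    rw [h1, Module.Basis.smulTower_apply, h2, PowerBasis.basis_eq_pow, Algebra.smul_def, mul_comm]
    rfl

theorem gex (gup : GupStmt) : GexStmt := by
  classical
  intro R F Γ0 W _ _ c _ _ _ _ l G0 hl
  have hnt : Nontrivial R := c.κ.domain_nontrivial
  obtain ⟨Γ, i1, i2, i3, i4, ⟨G⟩⟩ := gex_ring R W l
  letI ia : Algebra R Γ0 := RingHom.toAlgebra ((algebraMap F Γ0).comp c.κ)
  have hsm : ∀ (r : R) (x : Γ0), r • x = c.κ r • x := by
    intro r x
    rw [Algebra.smul_def, Algebra.smul_def]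
    rfl
  obtain ⟨ρ, hρy, hρw⟩ := gup R Γ W Γ0 l G G0.y G0.om hl G0.yl (fun w => mul_comm _ _)
  have key : ∀ a : ℕ → W → R, ρ (∑ k ∈ Finset.range l, ∑ w, a k w • (G.y ^ k * G.om w)) =
      ∑ k ∈ Finset.range l, ∑ w, c.κ (a k w) • (G0.y ^ k * G0.om w) := by
    intro a
    rw [map_sum]
    refine Finset.sum_congr rfl ?_
    intro k _
    rw [map_sum]
    refine Finset.sum_congr rfl ?_
    intro w _
    rw [map_smul, map_mul, map_pow, hρy, hρw, hsm]
  refine ⟨Γ, i1, i2, i3, i4, G, ⟨ρ.toRingHom, ?_, ?_, ?_⟩, hρy, hρw⟩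
  · intro r
    exact ρ.commutes r
  · intro x
    choose s hs using c.surj
    refine ⟨∑ k ∈ Finset.range l, ∑ w, s (G0.co k w x) • (G.y ^ k * G.om w), ?_⟩
    have h1 := key (fun k w => s (G0.co k w x))
    refine Eq.trans h1 ?_
    have h2 : ∀ (k : ℕ) (w : W), c.κ (s (G0.co k w x)) = G0.co k w x := fun k w => hs _
    simp only [h2]
    exact G0.ex x
  · intro γ hγ
    have h0 : ρ γ = 0 := hγ
    have h1 := key (fun k w => G.co k w γ)
    have h2 : ∑ k ∈ Finset.range l, ∑ w, G.co k w γ • (G.y ^ k * G.om w) = γ := G.ex γ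
    rw [h2, h0] at h1
    have h3 : ∀ (k : ℕ) (w : W), k < l → c.κ (G.co k w γ) = 0 := by
      intro k w hk
      have h4 := G0.un (fun k w => c.κ (G.co k w γ)) k w hk
      rw [← h1, map_zero] at h4
      exact h4.symm
    have h5 : ∀ (k : ℕ) (w : W), ∃ s : R, k < l → G.co k w γ = c.π * s := by
      intro k w
      by_cases hk : k < l
      · obtain ⟨s, hs⟩ := (c.ker _).1 (h3 k w hk)
        exact ⟨s, fun _ => hs⟩
      · exact ⟨0, fun h => absurd h hk⟩
    choose s hs using h5
    refine ⟨∑ k ∈ Finset.range l, ∑ w, s k w • (G.y ^ k * G.om w), ?_⟩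
    refine Eq.trans h2.symm ?_
    rw [Finset.smul_sum]
    refine Finset.sum_congr rfl ?_
    intro k hk
    rw [Finset.smul_sum]
    refine Finset.sum_congr rfl ?_
    intro w _
    rw [hs k w (Finset.mem_range.1 hk), mul_smul]

end Pool.Agent.PFE.H2
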