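import Pool.Agent.PFE.StmtsE2c

/-!
# Squad PFE, row ORB

A section of the orbits of `P × P`, `P` a factor of `V`.
-/

noncomputable section

namespace Pool.Agent.PFE.H2

open Pool.Agent.PFE

theorem orb : OrbStmt := by
  intro V Om _ _ P W hPW h
  have hdec : ∀ v : V, ∃ p ∈ P, ∃ w ∈ W, v = p * w := by
    intro v
    have hv : v ∈ P ⊔ W := by
      rw [hPW]
      exact Subgroup.mem_top v
    obtain ⟨p, hp, w, hw, hpw⟩ := Subgroup.mem_sup.1 hv
    exact ⟨p, hp, w, hw, hpw.symm⟩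
  -- representatives of the orbits
  let rep : Om → Om := fun ω => (Quotient.mk (MulAction.orbitRel (V × V) Om) ω).out
  have hrep : ∀ ω, ∃ g : V × V, ω = g • rep ω := by
    intro ω
    have h1 : (MulAction.orbitRel (V × V) Om) (rep ω) ω := Quotient.exact (Quotient.out_eq _)
    obtain ⟨g, hg⟩ := (MulAction.orbitRel (V × V) Om).symm h1
    exact ⟨g, hg.symm⟩
  have hrep' : ∀ (ω : Om) (g : V × V), rep (g • ω) = rep ω := by
    intro ω g
    have h1 : (Quotient.mk (MulAction.orbitRel (V × V) Om) (g • ω)) =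
        Quotient.mk (MulAction.orbitRel (V × V) Om) ω := Quotient.sound ⟨g, rfl⟩
    show (Quotient.mk (MulAction.orbitRel (V × V) Om) (g • ω)).out = _
    rw [h1]
  have hrr : ∀ ω, rep (rep ω) = rep ω := by
    intro ω
    obtain ⟨g, hg⟩ := hrep ω
    have h1 := hrep' (rep ω) g
    rw [← hg] at h1
    exact h1.symm
  refine ⟨{x | ∃ b : V × V, b.1 ∈ W ∧ b.2 ∈ W ∧ ∃ ω, x = b • rep ω}, ?_, ?_, ?_⟩
  · rintro _ ⟨c, hc1, hc2, ω, rfl⟩ b hb1 hb2
    exact ⟨b * c, W.mul_mem hb1 hc1, W.mul_mem hb2 hc2, ω, (mul_smul _ _ _).symm⟩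
  · intro ω
    obtain ⟨g, hg⟩ := hrep ω
    obtain ⟨p1, hp1, w1, hw1, e1⟩ := hdec g.1
    obtain ⟨p2, hp2, w2, hw2, e2⟩ := hdec g.2
    have hgg : g = (p1, p2) * (w1, w2) := Prod.ext e1 e2
    refine ⟨(p1, p2)⁻¹, P.inv_mem hp1, P.inv_mem hp2, (w1, w2), hw1, hw2, ω, ?_⟩
    have h1 : (p1, p2)⁻¹ • ω = (p1, p2)⁻¹ • (g • rep ω) := by
      rw [← hg]
    rw [h1, hgg, mul_smul, inv_smul_smul]
  · rintro _ ⟨b, hb1, hb2, ω, rfl⟩ a ha1 ha2 ⟨c, hc1, hc2, ω', hc⟩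
    have h1 : rep ω = rep ω' := by
      have h2 : rep (a • b • rep ω) = rep (c • rep ω') := by rw [hc]
      rw [hrep', hrep', hrep', hrr, hrr] at h2
      exact h2
    rw [← h1] at hc
    have h2 : (a * (b * c⁻¹)) • rep ω = rep ω := by
      have h3 : a * (b * c⁻¹) = c⁻¹ * (a * b) := by
        rw [← mul_assoc, mul_comm]
      rw [h3, mul_smul, mul_smul, hc, inv_smul_smul]
    have h3 : a • rep ω = rep ω := h (rep ω) a (b * c⁻¹) ha1 ha2
      (W.mul_mem hb1 (W.inv_mem hc1)) (W.mul_mem hb2 (W.inv_mem hc2)) h2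
    rw [← mul_smul, mul_comm, mul_smul, h3]

end Pool.Agent.PFE.H2
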